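import Pool.Agent.W543.GE.Stm
import Pool.Agent.W135.GE.DIVB1

/-! Project GE, part DIVB: cyclic division algebras over rational functions. -/

set_option autoImplicit false

open Polynomial

namespace Pool.Agent.W150.GE

universe u

open Pool.Agent.W543.GE

section

variable {L : Type u} [Field L]

/-- rational functions -/
abbrev Fr (L : Type u) [Field L] : Type u := FractionRing L[X]

/-- the automorphism acting on the coefficients -/
noncomputable def sh (σ : L ≃+* L) : Fr L →+* Fr L :=
  ((IsFractionRing.ringEquivOfRingEquiv (Polynomial.mapEquiv σ) : Fr L ≃+* Fr L) : Fr L →+* Fr L)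

/-- polynomials as rational functions -/
noncomputable abbrev al : L[X] →+* Fr L := algebraMap L[X] (Fr L)

theorem al_inj {f : L[X]} (h : al f = 0) : f = 0 :=
  (IsFractionRing.injective L[X] (Fr L)) (by rw [map_zero]; exact h)

theorem sh_al (σ : L ≃+* L) (f : L[X]) : sh σ (al f) = al (f.map (σ : L →+* L)) := by
  unfold sh al
  rw [RingEquiv.coe_toRingHom, IsFractionRing.ringEquivOfRingEquiv_algebraMap]
  rfl

theorem sh_X (σ : L ≃+* L) : sh σ (al X) = al X := by
  rw [sh_al, Polynomial.map_X]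

theorem sh_C (σ : L ≃+* L) (l : L) : sh σ (al (C l)) = al (C (σ l)) := by
  rw [sh_al, Polynomial.map_C]; rfl

theorem sh_iter (σ : L ≃+* L) (i : ℕ) (f : L[X]) :
    (sh σ)^[i] (al f) = al (f.map ((σ ^ i : L ≃+* L) : L →+* L)) := by
  induction i with
  | zero =>
    rw [Function.iterate_zero, id, pow_zero]
    congr 1
    ext d
    rw [coeff_map]; rfl
  | succ i ih =>
    rw [Function.iterate_succ_apply', ih, sh_al, Polynomial.map_map]
    congr 2
    ext l
    rw [pow_succ']; rfl

theorem sh_iter_X (σ : L ≃+* L) (i : ℕ) : (sh σ)^[i] (al X) = al X := by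
  rw [sh_iter, Polynomial.map_X]

theorem sh_inj (σ : L ≃+* L) : Function.Injective (sh σ) := (sh σ).injective

/-- the matrix `T` -/
noncomputable def TT (L : Type u) [Field L] (N : ℕ) : Matrix (Fin N) (Fin N) (Fr L) :=
  fun i j => if (i : ℕ) + 1 = j then 1 else if (i : ℕ) + 1 = N ∧ (j : ℕ) = 0 then al X else 0

theorem TT_mul {N : ℕ} (x : Matrix (Fin N) (Fin N) (Fr L)) (i j : Fin N) :
    (TT L N * x) i j = if h : (i : ℕ) + 1 < N then x ⟨i + 1, h⟩ j
      else al X * x ⟨0, by have := i.2; omega⟩ j := by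
  rw [Matrix.mul_apply]
  split_ifs with h
  · rw [Finset.sum_eq_single ⟨i + 1, h⟩]
    · unfold TT; rw [if_pos rfl, one_mul]
    · intro k _ hk
      have h1 : (i : ℕ) + 1 ≠ k := fun h' => hk (Fin.ext h'.symm)
      unfold TT
      rw [if_neg h1, if_neg (by omega), zero_mul]
    · intro h'; exact absurd (Finset.mem_univ _) h'
  · have hi := i.2
    rw [Finset.sum_eq_single ⟨0, by omega⟩]
    · unfold TT; rw [if_neg (by simp), if_pos ⟨by omega, rfl⟩]
    · intro k _ hk
      have h1 : (k : ℕ) ≠ 0 := fun h' => hk (Fin.ext h')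
      have hk2 := k.2
      unfold TT
      rw [if_neg (by omega), if_neg (by omega), zero_mul]
    · intro h'; exact absurd (Finset.mem_univ _) h'

theorem mul_TT {N : ℕ} (y : Matrix (Fin N) (Fin N) (Fr L)) (i j : Fin N) :
    (y * TT L N) i j = if (j : ℕ) = 0 then al X * y i ⟨N - 1, by have := i.2; omega⟩
      else y i ⟨j - 1, by have := j.2; omega⟩ := by
  rw [Matrix.mul_apply]
  have hj := j.2
  split_ifs with h
  · rw [Finset.sum_eq_single ⟨N - 1, by omega⟩]
    · unfold TT
      rw [if_neg (by simp only; omega), if_pos ⟨by simp only; omega, h⟩, mul_comm]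
    · intro k _ hk
      have h1 : (k : ℕ) ≠ N - 1 := fun h' => hk (Fin.ext h')
      have hk2 := k.2
      unfold TT
      rw [if_neg (by omega), if_neg (by omega), mul_zero]
    · intro h'; exact absurd (Finset.mem_univ _) h'
  · rw [Finset.sum_eq_single ⟨j - 1, by omega⟩]
    · unfold TT
      rw [if_pos (by simp only; omega), mul_one]
    · intro k _ hk
      have h1 : (k : ℕ) ≠ j - 1 := fun h' => hk (Fin.ext h')
      have hk2 := k.2
      unfold TT
      rw [if_neg (by omega), if_neg (by omega), mul_zero]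
    · intro h'; exact absurd (Finset.mem_univ _) h'

theorem TT_map (σ : L ≃+* L) (N : ℕ) : (TT L N).map (sh σ) = TT L N := by
  ext i j
  rw [Matrix.map_apply]
  unfold TT
  split_ifs
  · rw [map_one]
  · rw [sh_X]
  · rw [map_zero]

/-- the diagonal matrices -/
noncomputable def dg (σ : L ≃+* L) (N : ℕ) (l : L) : Matrix (Fin N) (Fin N) (Fr L) :=
  Matrix.diagonal fun i => al (C ((σ ^ (i : ℕ) : L ≃+* L) l))

theorem dg_map (σ : L ≃+* L) (N : ℕ) (l : L) : (dg σ N l).map (sh σ) = dg σ N (σ l) := by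
  unfold dg
  rw [Matrix.diagonal_map (map_zero _)]
  congr 1
  funext i
  rw [sh_C]
  congr 2
  show (σ * σ ^ (i : ℕ)) l = (σ ^ (i : ℕ) * σ) l
  rw [← pow_succ, ← pow_succ']

theorem TT_dg (σ : L ≃+* L) {N : ℕ} (hσ : σ ^ N = 1) (l : L) :
    TT L N * dg σ N l = dg σ N (σ l) * TT L N := by
  ext i j
  unfold dg
  rw [Matrix.mul_diagonal, Matrix.diagonal_mul]
  unfold TT
  split_ifs with h1 h2
  · rw [one_mul, mul_one, ← h1, pow_succ]; rfl
  · have h3 : (σ ^ (i : ℕ) : L ≃+* L) (σ l) = l := by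
      show (σ ^ (i : ℕ) * σ) l = l
      rw [← pow_succ, h2.1, hσ]; rfl
    rw [h3, h2.2, pow_zero, mul_comm]; rfl
  · rw [zero_mul, mul_zero]

/-- the commutation relation -/
def Cm (σ : L ≃+* L) (N : ℕ) (x : Matrix (Fin N) (Fin N) (Fr L)) : Prop :=
  x.map (sh σ) * TT L N = TT L N * x

theorem map_mul' (σ : L ≃+* L) {N : ℕ} (x y : Matrix (Fin N) (Fin N) (Fr L)) :
    (x * y).map (sh σ) = x.map (sh σ) * y.map (sh σ) := Matrix.map_mul

/-- the entries are determined by the first row -/
theorem Cm.form {σ : L ≃+* L} {N : ℕ} {x : Matrix (Fin N) (Fin N) (Fr L)} (hx : Cm σ N x)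
    (hN : 0 < N) : ∀ (i : ℕ) (hi : i < N) (j : ℕ) (hj : j < N),
    x ⟨i, hi⟩ ⟨j, hj⟩ = if h : i ≤ j then (sh σ)^[i] (x ⟨0, hN⟩ ⟨j - i, by omega⟩)
      else al X * (sh σ)^[i] (x ⟨0, hN⟩ ⟨N + j - i, by omega⟩) := by
  intro i
  induction i with
  | zero => intro hi j hj; simp
  | succ i ih =>
    intro hi j hj
    have h1 := congrFun (congrFun hx ⟨i, by omega⟩) ⟨j, hj⟩
    rw [mul_TT, TT_mul, dif_pos (show i + 1 < N from hi)] at h1
    rw [← h1]
    by_cases hj0 : j = 0
    · subst hj0
      rw [if_pos rfl, dif_neg (by omega), Matrix.map_apply, ih (by omega) (N - 1) (by omega),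
        dif_pos (by omega), ← Function.iterate_succ_apply' (sh σ)]
      congr 4
      omega
    · rw [if_neg hj0, Matrix.map_apply, ih (by omega) (j - 1) (by omega)]
      by_cases h2 : i + 1 ≤ j
      · rw [dif_pos (show i ≤ j - 1 by omega), dif_pos h2, ← Function.iterate_succ_apply' (sh σ)]
        congr 3
        omega
      · rw [dif_neg (show ¬ i ≤ j - 1 by omega), dif_neg h2, map_mul, sh_X,
          ← Function.iterate_succ_apply' (sh σ)]
        congr 4
        omega

theorem Cm.det_ne {σ : L ≃+* L} {N : ℕ} {x : Matrix (Fin N) (Fin N) (Fr L)} (hx : Cm σ N x)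
    (hN : 0 < N) (h0 : x ≠ 0) : x.det ≠ 0 := by
  classical
  -- the first row is not zero
  have hrow : ∃ j : Fin N, x ⟨0, hN⟩ j ≠ 0 := by
    by_contra hc
    push Not at hc
    apply h0
    ext ⟨i, hi⟩ ⟨j, hj⟩
    rw [hx.form hN i hi j hj]
    split_ifs
    · rw [hc, iterate_map_zero]; rfl
    · rw [hc, iterate_map_zero, mul_zero]; rfl
  -- common denominator
  obtain ⟨b, hb⟩ := IsLocalization.exist_integer_multiples_of_finite (nonZeroDivisors L[X])
    (fun j : Fin N => x ⟨0, hN⟩ j)
  have hb0 : (b : L[X]) ≠ 0 := nonZeroDivisors.coe_ne_zero b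
  choose p hp using hb
  have hp' : ∀ j, al (b : L[X]) * x ⟨0, hN⟩ j = al (p j) := by
    intro j
    have := hp j
    rw [Algebra.smul_def] at this
    exact this.symm
  -- the scaled matrix
  set q : ℕ → L[X] := fun k => if h : k < N then p ⟨k, h⟩ else 0 with hq
  have hne := Pool.Agent.W135.GE.det_ne σ N hN q (by
    obtain ⟨j, hj⟩ := hrow
    refine ⟨j, j.2, fun h => hj ?_⟩
    have h1 : p j = 0 := by
      rw [hq] at h
      simp only [j.2, dif_pos] at h
      exact h
    have h2 := hp' j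
    rw [h1, map_zero] at h2
    rcases mul_eq_zero.1 h2 with h3 | h3
    · exact absurd (al_inj h3) hb0
    · exact h3)
  have hy : (Matrix.diagonal fun i : Fin N => (sh σ)^[(i : ℕ)] (al (b : L[X]))) * x =
      (Pool.Agent.W135.GE.ymat σ N q).map (algebraMap L[X] (Fr L)) := by
    ext ⟨i, hi⟩ ⟨j, hj⟩
    rw [Matrix.diagonal_mul, Matrix.map_apply, hx.form hN i hi j hj]
    unfold Pool.Agent.W135.GE.ymat
    simp only
    by_cases h : i ≤ j
    · rw [dif_pos h, if_pos h, ← iterate_map_mul, hp', sh_iter]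
      have e1 : q (j - i) = p ⟨j - i, by omega⟩ := by rw [hq]; simp only; rw [dif_pos]
      rw [e1]
    · rw [dif_neg h, if_neg h, mul_left_comm, ← iterate_map_mul, hp', sh_iter]
      have e1 : q (N + j - i) = p ⟨N + j - i, by omega⟩ := by
        rw [hq]; simp only; rw [dif_pos]
      rw [e1, map_mul]
  intro hdet
  have h1 := congrArg Matrix.det hy
  rw [Matrix.det_mul, hdet, mul_zero] at h1
  have h2 : ((Pool.Agent.W135.GE.ymat σ N q).map (algebraMap L[X] (Fr L))).det =
      al (Pool.Agent.W135.GE.ymat σ N q).det := by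
    unfold al
    rw [RingHom.map_det]; rfl
  rw [h2] at h1
  exact hne (al_inj h1.symm)

theorem Cm.inv {σ : L ≃+* L} {N : ℕ} {x : Matrix (Fin N) (Fin N) (Fr L)} (hx : Cm σ N x)
    (hd : IsUnit x.det) : Cm σ N x⁻¹ := by
  have h1 : x * x⁻¹ = 1 := Matrix.mul_nonsing_inv x hd
  have h2 : x⁻¹ * x = 1 := Matrix.nonsing_inv_mul x hd
  have h3 : (x⁻¹).map (sh σ) * x.map (sh σ) = 1 := by
    rw [← map_mul', h2, Matrix.map_one _ (map_zero _) (map_one _)]
  unfold Cm at hx ⊢
  calc (x⁻¹).map (sh σ) * TT L N = (x⁻¹).map (sh σ) * (TT L N * x) * x⁻¹ := by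
        rw [mul_assoc, mul_assoc, h1, mul_one]
    _ = (x⁻¹).map (sh σ) * (x.map (sh σ) * TT L N) * x⁻¹ := by rw [hx]
    _ = TT L N * x⁻¹ := by rw [← mul_assoc, h3, one_mul]

/-- the first row of the powers of `T` -/
theorem TT_pow_row {N : ℕ} (hN : 0 < N) (k : ℕ) (j : Fin N) :
    (TT L N ^ k) ⟨0, hN⟩ j = if k % N = j then al X ^ (k / N) else 0 := by
  induction k generalizing j with
  | zero =>
    rw [pow_zero, Matrix.one_apply, Nat.zero_mod, Nat.zero_div, pow_zero]
    by_cases h : (0 : ℕ) = j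
    · rw [if_pos (Fin.ext h), if_pos h]
    · rw [if_neg (fun h' => h (congrArg Fin.val h')), if_neg h]
  | succ k ih =>
    have hj := j.2
    have hk : k % N < N := Nat.mod_lt _ hN
    have hdm := Nat.div_add_mod k N
    rw [pow_succ, mul_TT]
    by_cases h0 : (j : ℕ) = 0
    · rw [if_pos h0, ih]
      by_cases h1 : k % N = N - 1
      · have e1 : k + 1 = N * (k / N + 1) := by rw [mul_add, mul_one]; omega
        have e2 : (k + 1) % N = 0 := by rw [e1]; exact Nat.mul_mod_right _ _
        have e3 : (k + 1) / N = k / N + 1 := by rw [e1]; exact Nat.mul_div_cancel_left _ hN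
        rw [if_pos h1, e2, e3, if_pos h0.symm, pow_succ, mul_comm]
      · have e2 : (k + 1) % N = k % N + 1 := by
          rw [Nat.add_mod, Nat.mod_eq_of_lt (show 1 < N by omega), Nat.mod_eq_of_lt (by omega)]
        rw [if_neg h1, e2, if_neg (by omega), mul_zero]
    · rw [if_neg h0, ih]
      simp only
      by_cases h1 : k % N = N - 1
      · have e1 : k + 1 = N * (k / N + 1) := by rw [mul_add, mul_one]; omega
        have e2 : (k + 1) % N = 0 := by rw [e1]; exact Nat.mul_mod_right _ _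
        rw [if_neg (by omega), e2, if_neg (by omega)]
      · have e2 : (k + 1) % N = k % N + 1 := by
          rw [Nat.add_mod, Nat.mod_eq_of_lt (show 1 < N by omega), Nat.mod_eq_of_lt (by omega)]
        have e3 : (k + 1) / N = k / N := by
          rw [Nat.add_div hN]
          have : ¬ N ≤ k % N + 1 % N := by
            rw [Nat.mod_eq_of_lt (show 1 < N by omega)]; omega
          rw [if_neg this, Nat.div_eq_of_lt (show 1 < N by omega)]
          omega
        rw [e2, e3]
        by_cases h2 : k % N = j - 1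
        · rw [if_pos h2, if_pos (by omega)]
        · rw [if_neg h2, if_neg (by omega)]

end

section

variable {K : Type u} [Field K] {L : Type u} [Field L] [Algebra K L]

theorem sh_algebraMap (σ : L ≃ₐ[K] L) (r : K) :
    sh (σ : L ≃+* L) (algebraMap K (Fr L) r) = algebraMap K (Fr L) r := by
  have h1 : algebraMap K (Fr L) r = al (C (algebraMap K L r)) := by
    rw [IsScalarTower.algebraMap_apply K L[X] (Fr L)]
    rfl
  rw [h1, sh_C]
  congr 2
  exact σ.commutes r

/-- the algebra `D` -/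
noncomputable def DD (σ : L ≃ₐ[K] L) (N : ℕ) : Subalgebra K (Matrix (Fin N) (Fin N) (Fr L)) where
  carrier := {x | Cm (σ : L ≃+* L) N x}
  mul_mem' := by
    intro x y hx hy
    show (x * y).map _ * _ = _
    have hx' : x.map (sh (σ : L ≃+* L)) * TT L N = TT L N * x := hx
    have hy' : y.map (sh (σ : L ≃+* L)) * TT L N = TT L N * y := hy
    rw [map_mul', mul_assoc, hy', ← mul_assoc, hx', mul_assoc]
  add_mem' := by
    intro x y hx hy
    show (x + y).map _ * _ = _
    have hx' : x.map (sh (σ : L ≃+* L)) * TT L N = TT L N * x := hx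
    have hy' : y.map (sh (σ : L ≃+* L)) * TT L N = TT L N * y := hy
    rw [Matrix.map_add _ (map_add _), add_mul, mul_add, hx', hy']
  algebraMap_mem' := by
    intro r
    show (algebraMap K (Matrix (Fin N) (Fin N) (Fr L)) r).map _ * _ = _
    have h1 : (algebraMap K (Matrix (Fin N) (Fin N) (Fr L)) r).map (sh (σ : L ≃+* L)) =
        algebraMap K (Matrix (Fin N) (Fin N) (Fr L)) r := by
      rw [Matrix.algebraMap_eq_diagonal, Matrix.diagonal_map (map_zero _)]
      congr 1
      funext i
      exact sh_algebraMap σ r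
    rw [h1]
    exact Algebra.commutes r _

theorem mem_DD (σ : L ≃ₐ[K] L) (N : ℕ) (x : Matrix (Fin N) (Fin N) (Fr L)) :
    x ∈ DD σ N ↔ Cm (σ : L ≃+* L) N x := Iff.rfl

/-- the embedding of `L` -/
noncomputable def eL (σ : L ≃ₐ[K] L) (N : ℕ) (hσ : (σ : L ≃+* L) ^ N = 1) : L →ₐ[K] DD σ N where
  toFun l := ⟨dg (σ : L ≃+* L) N l, by
    rw [mem_DD]; unfold Cm; rw [dg_map, TT_dg _ hσ]⟩
  map_one' := by
    apply Subtype.ext
    show dg (σ : L ≃+* L) N 1 = 1
    unfold dg
    simp
  map_mul' a b := by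
    apply Subtype.ext
    show dg (σ : L ≃+* L) N (a * b) = dg (σ : L ≃+* L) N a * dg (σ : L ≃+* L) N b
    unfold dg
    rw [Matrix.diagonal_mul_diagonal]
    congr 1
    funext i
    rw [map_mul, C_mul, map_mul]
  map_zero' := by
    apply Subtype.ext
    show dg (σ : L ≃+* L) N 0 = 0
    unfold dg
    simp
  map_add' a b := by
    apply Subtype.ext
    show dg (σ : L ≃+* L) N (a + b) = dg (σ : L ≃+* L) N a + dg (σ : L ≃+* L) N b
    unfold dg
    rw [Matrix.diagonal_add]
    congr 1
    funext i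
    rw [map_add, C_add, map_add]
  commutes' r := by
    apply Subtype.ext
    show dg (σ : L ≃+* L) N (algebraMap K L r) = algebraMap K (Matrix (Fin N) (Fin N) (Fr L)) r
    unfold dg
    rw [Matrix.algebraMap_eq_diagonal]
    congr 1
    funext i
    have h1 : algebraMap K (Fr L) r = al (C (algebraMap K L r)) := by
      rw [IsScalarTower.algebraMap_apply K L[X] (Fr L)]
      rfl
    have h2 : ((σ : L ≃+* L) ^ (i : ℕ)) (algebraMap K L r) = algebraMap K L r := by
      induction (i : ℕ) with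
      | zero => rfl
      | succ k ih =>
        rw [pow_succ']
        show σ (((σ : L ≃+* L) ^ k) (algebraMap K L r)) = _
        rw [ih]
        exact σ.commutes r
    rw [h2, Pi.algebraMap_apply, h1]

theorem t_DIVB : DIVB_stmt.{u} := by
  intro K _ L _ _ σ N hN hσ
  have hσ' : (σ : L ≃+* L) ^ N = 1 := by
    ext l
    have h : ∀ k : ℕ, ((σ : L ≃+* L) ^ k) l = (σ ^ k) l := by
      intro k
      induction k with
      | zero => rfl
      | succ k ih =>
        rw [pow_succ', pow_succ']
        show σ (((σ : L ≃+* L) ^ k) l) = σ ((σ ^ k) l)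
        rw [ih]
    rw [h, hσ]; rfl
  have hNe : Nonempty (Fin N) := ⟨⟨0, hN⟩⟩
  refine ⟨DD σ N, inferInstance, inferInstance, ⟨⟨0, 1, ?_⟩⟩, Fr L, inferInstance, inferInstance,
    (DD σ N).val, eL σ N hσ', ⟨TT L N, ?_⟩, ?_, Subtype.val_injective, ?_, ?_⟩
  · intro h
    have := congrArg Subtype.val h
    exact zero_ne_one this
  · rw [mem_DD]; unfold Cm; rw [TT_map]
  · rintro ⟨z, hz⟩
    by_cases h0 : z = 0
    · right; exact Subtype.ext h0
    · left
      rw [mem_DD] at hz
      have hd : IsUnit z.det := (hz.det_ne hN h0).isUnit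
      refine ⟨⟨⟨z, hz⟩, ⟨z⁻¹, hz.inv hd⟩, ?_, ?_⟩, rfl⟩
      · exact Subtype.ext (Matrix.mul_nonsing_inv z hd)
      · exact Subtype.ext (Matrix.nonsing_inv_mul z hd)
  · intro l
    apply Subtype.ext
    exact TT_dg (σ : L ≃+* L) hσ' l
  · intro m c hc
    funext k0
    have h1 : ∑ k : Fin m, dg (σ : L ≃+* L) N (c k) * TT L N ^ (k : ℕ) = 0 := by
      have h2 := congrArg (DD σ N).val hc
      rw [map_sum, map_zero] at h2
      exact h2
    have hlt : (k0 : ℕ) % N < N := Nat.mod_lt _ hN
    have h2 := congrFun (congrFun h1 ⟨0, hN⟩) ⟨(k0 : ℕ) % N, hlt⟩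
    rw [Matrix.sum_apply] at h2
    have h3 : ∀ k : Fin m, (dg (σ : L ≃+* L) N (c k) * TT L N ^ (k : ℕ)) ⟨0, hN⟩
        ⟨(k0 : ℕ) % N, hlt⟩ = al (if (k : ℕ) % N = (k0 : ℕ) % N then
          C (c k) * X ^ ((k : ℕ) / N) else 0) := by
      intro k
      unfold dg
      rw [Matrix.diagonal_mul, TT_pow_row hN]
      simp only [pow_zero]
      split_ifs
      · rw [map_mul, map_pow]; rfl
      · rw [mul_zero, map_zero]
    rw [Finset.sum_congr rfl fun k _ => h3 k, ← map_sum] at h2
    have h4 := al_inj h2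
    have h5 := congrArg (fun f : L[X] => f.coeff ((k0 : ℕ) / N)) h4
    simp only [finsetSum_coeff, coeff_zero] at h5
    rw [Finset.sum_eq_single k0] at h5
    · rw [if_pos rfl, coeff_C_mul, coeff_X_pow, if_pos rfl, mul_one] at h5
      exact h5
    · intro k _ hk
      by_cases h6 : (k : ℕ) % N = (k0 : ℕ) % N
      · rw [if_pos h6, coeff_C_mul, coeff_X_pow, if_neg, mul_zero]
        intro h7
        apply hk
        apply Fin.ext
        rw [← Nat.div_add_mod (k : ℕ) N, ← Nat.div_add_mod (k0 : ℕ) N, h6, h7]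
      · rw [if_neg h6, coeff_zero]
    · intro h; exact absurd (Finset.mem_univ _) h

end

end Pool.Agent.W150.GE
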